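import Mathlib

/-!
# A plastic dense subgroup of the real line of size below the continuum

The subgroup generated by a strong Sierpinski family of reals is plastic. After adding `ℵ₂` random
reals to a model of CH there is such a family of size `ℵ₁ < 𝔠`.
-/

set_option autoImplicit false

open Set Topology Filter MeasureTheory

namespace Pool.Agent.Results.MP_f5469c_gt.PlasticSubgroup

/-- A metric space is plastic if every non-expansive bijection of it onto itself is an isometry. -/
def IsPlastic (X : Type) [MetricSpace X] : Prop :=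
  ∀ f : X → X, Function.Bijective f → (∀ a b, dist (f a) (f b) ≤ dist a b) →
    ∀ a b, dist (f a) (f b) = dist a b

/-- An uncountable family `x` of reals is a strong Sierpinski family if for every `n` and every
Lebesgue null set `N` in dimension `n` there is a countable set `C` of indices such that no `n`-tuple
`x (i 1), ..., x (i n)` with distinct indices outside `C` belongs to `N`. -/
def IsStrongSierpinski {ι : Type} (x : ι → ℝ) : Prop :=
  Uncountable ι ∧ ∀ (n : ℕ) (N : Set (Fin n → ℝ)), volume N = 0 →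
    ∃ C : Set ι, C.Countable ∧ ∀ σ : Fin n → ι, Function.Injective σ → (∀ i, σ i ∉ C) →
      (fun i => x (σ i)) ∉ N

/-! ## Subgroups generated by families -/

lemma mem_rep {ι : Type} (x : ι → ℝ) {h : ℝ} (hh : h ∈ AddSubgroup.closure (range x)) :
    ∃ c : ι →₀ ℤ, h = Finsupp.linearCombination ℤ x c := by
  induction hh using AddSubgroup.closure_induction with
  | mem y hy =>
    obtain ⟨i, rfl⟩ := hy
    exact ⟨Finsupp.single i 1, by simp⟩
  | zero => exact ⟨0, by simp⟩
  | add y z _ _ hy hz =>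
    obtain ⟨c, hc⟩ := hy
    obtain ⟨d, hd⟩ := hz
    exact ⟨c + d, by rw [map_add, ← hc, ← hd]⟩
  | neg y _ hy =>
    obtain ⟨c, hc⟩ := hy
    exact ⟨-c, by rw [map_neg, ← hc]⟩

lemma countable_closure {s : Set ℝ} (hs : s.Countable) : (AddSubgroup.closure s : Set ℝ).Countable := by
  have : Countable s := hs
  have h : (AddSubgroup.closure s : Set ℝ) ⊆
      range (fun c : s →₀ ℤ => Finsupp.linearCombination ℤ (Subtype.val : s → ℝ) c) := by
    intro y hy
    have hy' : y ∈ AddSubgroup.closure (range (Subtype.val : s → ℝ)) := by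
      rwa [Subtype.range_val]
    obtain ⟨c, hc⟩ := mem_rep _ hy'
    exact ⟨c, hc.symm⟩
  exact (countable_range _).mono h

lemma finite_support {ι : Type} (x : ι → ℝ) (C : Set ι) {h : ℝ}
    (hh : h ∈ AddSubgroup.closure (x '' C)) :
    ∃ s : Finset ι, (s : Set ι) ⊆ C ∧ h ∈ AddSubgroup.closure (x '' (s : Set ι)) := by
  classical
  induction hh using AddSubgroup.closure_induction with
  | mem y hy =>
    obtain ⟨i, hi, rfl⟩ := hy
    exact ⟨{i}, by simpa using hi, AddSubgroup.subset_closure (by simp)⟩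
  | zero => exact ⟨∅, by simp, AddSubgroup.zero_mem _⟩
  | add y z _ _ hy hz =>
    obtain ⟨s, hs, hys⟩ := hy
    obtain ⟨t, ht, hzt⟩ := hz
    refine ⟨s ∪ t, by simp [hs, ht], AddSubgroup.add_mem _ ?_ ?_⟩
    · exact AddSubgroup.closure_mono (image_mono (by simp)) hys
    · exact AddSubgroup.closure_mono (image_mono (by simp)) hzt
  | neg y _ hy =>
    obtain ⟨s, hs, hys⟩ := hy
    exact ⟨s, hs, AddSubgroup.neg_mem _ hys⟩

/-! ## Closing off -/

lemma exists_closed {ι : Type} (Γ : Finset ι → Set ι) (hΓ : ∀ s, (Γ s).Countable) (C0 : Set ι)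
    (h0 : C0.Countable) :
    ∃ C : Set ι, C.Countable ∧ C0 ⊆ C ∧ ∀ s : Finset ι, (s : Set ι) ⊆ C → Γ s ⊆ C := by
  classical
  let step : Set ι → Set ι := fun C => C ∪ ⋃ s ∈ {s : Finset ι | (s : Set ι) ⊆ C}, Γ s
  have hstep : ∀ C : Set ι, C.Countable → (step C).Countable := by
    intro C hC
    refine hC.union ?_
    have h1 : {s : Finset ι | (s : Set ι) ⊆ C}.Countable := by
      have h2 := Set.countable_ofPred_finite_subset hC
      have h3 : {s : Finset ι | (s : Set ι) ⊆ C} ⊆
          (fun s : Finset ι => (s : Set ι)) ⁻¹' {t : Set ι | t.Finite ∧ t ⊆ C} := by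
        intro s hs
        exact ⟨s.finite_toSet, hs⟩
      exact (h2.preimage Finset.coe_injective).mono h3
    exact h1.biUnion fun s _ => hΓ s
  let q : ℕ → Set ι := fun n => step^[n] C0
  have hq : ∀ n, (q n).Countable := by
    intro n
    induction n with
    | zero => exact h0
    | succ n ih =>
      show (step^[n + 1] C0).Countable
      rw [Function.iterate_succ_apply']
      exact hstep _ ih
  have hsucc : ∀ n, q (n + 1) = step (q n) := fun n => Function.iterate_succ_apply' _ _ _
  have hmono : Monotone q := monotone_nat_of_le_succ fun n => by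
    rw [hsucc]
    exact subset_union_left
  refine ⟨⋃ n, q n, countable_iUnion hq, subset_iUnion q 0, fun s hs => ?_⟩
  have hex : ∃ n, (s : Set ι) ⊆ q n := by
    induction s using Finset.induction_on with
    | empty => exact ⟨0, by simp⟩
    | insert a s _ ih =>
      have h1 : (s : Set ι) ⊆ ⋃ n, q n := fun i hi => hs (by simp [Finset.mem_coe.1 hi])
      obtain ⟨n, hn⟩ := ih h1
      obtain ⟨m, hm⟩ := mem_iUnion.1 (hs (show a ∈ ((insert a s : Finset ι) : Set ι) by simp))
      refine ⟨max n m, ?_⟩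
      intro i hi
      rcases Finset.mem_insert.1 (Finset.mem_coe.1 hi) with rfl | hi
      · exact hmono (le_max_right n m) hm
      · exact hmono (le_max_left n m) (hn hi)
  obtain ⟨n, hn⟩ := hex
  intro i hi
  refine mem_iUnion.2 ⟨n + 1, ?_⟩
  rw [hsucc]
  exact Or.inr (mem_biUnion (show s ∈ {s : Finset ι | (s : Set ι) ⊆ q n} from hn) hi)

/-! ## Null sets -/

def Rel (F : ℝ → ℝ) (k : ℕ) (n : Fin k → ℤ) (m : ℤ) (g g' : ℝ) : Set (Fin (k + 1) → ℝ) :=
  {t | F (t 0 + g') = m * t 0 + ∑ i, (n i : ℝ) * t i.succ + g}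

lemma null_rel (F : ℝ → ℝ) (hF : Continuous F) (k : ℕ) (n : Fin k → ℤ) (m : ℤ) (g g' : ℝ)
    (j : Fin k) (hj : n j ≠ 0) : volume (Rel F k n m g g') = 0 := by
  classical
  let u : ℕ → (Fin (k + 1) → ℝ) := fun l => Pi.single j.succ (1 / ((l : ℝ) + 1))
  have hu : Bornology.IsBounded (range u) := by
    refine (Metric.isBounded_closedBall (x := (0 : Fin (k + 1) → ℝ)) (r := 1)).subset ?_
    rintro _ ⟨l, rfl⟩
    rw [mem_closedBall_zero_iff, pi_norm_le_iff_of_nonneg zero_le_one]
    intro i
    by_cases h : i = j.succ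
    · subst h
      simp only [u, Pi.single_eq_same]
      rw [Real.norm_of_nonneg (by positivity)]
      rw [div_le_one (by positivity)]
      have : (0 : ℝ) ≤ l := Nat.cast_nonneg l
      linarith
    · simp [u, Pi.single_eq_of_ne h]
  have hmeas : MeasurableSet (Rel F k n m g g') := by
    apply IsClosed.measurableSet
    apply isClosed_eq
    · fun_prop
    · fun_prop
  refine Measure.addHaar_eq_zero_of_disjoint_translates volume u hu ?_ hmeas
  intro l l' hll
  rw [Function.onFun, Set.disjoint_left]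
  rintro t ht ht'
  simp only [singleton_add, mem_image] at ht ht'
  obtain ⟨s, hs, rfl⟩ := ht
  obtain ⟨s', hs', hst⟩ := ht'
  have h0 : s' 0 = s 0 := by
    have := congrFun hst 0
    simp only [u, Pi.add_apply, Pi.single_eq_of_ne (Fin.succ_ne_zero j).symm, zero_add] at this
    exact this
  have hi : ∀ i : Fin k, i ≠ j → s' i.succ = s i.succ := by
    intro i hij
    have := congrFun hst i.succ
    have hne : i.succ ≠ j.succ := fun h => hij (Fin.succ_injective _ h)
    simp only [u, Pi.add_apply, Pi.single_eq_of_ne hne, zero_add] at this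
    exact this
  have hjj : 1 / ((l' : ℝ) + 1) + s' j.succ = 1 / ((l : ℝ) + 1) + s j.succ := by
    have := congrFun hst j.succ
    simpa [u] using this
  have e1 : F (s 0 + g') = m * s 0 + ∑ i, (n i : ℝ) * s i.succ + g := hs
  have e2 : F (s' 0 + g') = m * s' 0 + ∑ i, (n i : ℝ) * s' i.succ + g := hs'
  rw [h0, e1] at e2
  have e3 : ∑ i, (n i : ℝ) * s i.succ = ∑ i, (n i : ℝ) * s' i.succ := by linarith
  rw [← Finset.add_sum_erase _ _ (Finset.mem_univ j), ← Finset.add_sum_erase _ _ (Finset.mem_univ j)]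
    at e3
  have e4 : ∑ i ∈ Finset.univ.erase j, (n i : ℝ) * s i.succ =
      ∑ i ∈ Finset.univ.erase j, (n i : ℝ) * s' i.succ := by
    refine Finset.sum_congr rfl fun i hi' => ?_
    rw [hi i (Finset.ne_of_mem_erase hi')]
  rw [e4] at e3
  have e5 : (n j : ℝ) * s j.succ = (n j : ℝ) * s' j.succ := by linarith
  have e6 : s j.succ = s' j.succ := mul_left_cancel₀ (by exact_mod_cast hj) e5
  rw [e6] at hjj
  have e7 : 1 / ((l' : ℝ) + 1) = 1 / ((l : ℝ) + 1) := by linarith
  rw [one_div, one_div, inv_inj] at e7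
  apply hll
  have : (l' : ℝ) = l := by linarith
  exact_mod_cast this.symm

/-! ## Invariant sets -/

lemma conull_of_invariant (A : Set ℝ) (hA : MeasurableSet A) (D : AddSubgroup ℝ)
    (hD : Dense (D : Set ℝ)) (hinv : ∀ d ∈ D, ∀ t, t + d ∈ A ↔ t ∈ A) (hpos : volume A ≠ 0) :
    volume Aᶜ = 0 := by
  let μ : Measure ℝ := volume.restrict A
  have hle : ∀ s : Set ℝ, μ s ≤ volume s := fun s => Measure.restrict_apply_le _ _
  have step1 : ∀ d ∈ D, ∀ a b : ℝ, μ (Ioo (a + d) (b + d)) = μ (Ioo a b) := by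
    intro d hd a b
    show volume.restrict A _ = volume.restrict A _
    rw [Measure.restrict_apply measurableSet_Ioo, Measure.restrict_apply measurableSet_Ioo]
    rw [← measure_preimage_add_right volume d (Ioo (a + d) (b + d) ∩ A)]
    congr 1
    ext t
    simp only [mem_preimage, mem_inter_iff, mem_Ioo, add_lt_add_iff_right, hinv d hd t]
  have step2 : ∀ t a b : ℝ, μ (Ioo (a + t) (b + t)) ≤ μ (Ioo a b) := by
    intro t a b
    apply ENNReal.le_of_forall_pos_le_add
    intro ε hε _
    obtain ⟨d, hd, hdt⟩ := hD.exists_dist_lt t (show (0 : ℝ) < ε / 4 by positivity)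
    rw [Real.dist_eq, abs_lt] at hdt
    have hsub : Ioo (a + t) (b + t) ⊆ Ioo (a + d) (b + d) ∪
        (Icc (a + d - ε / 4) (a + d + ε / 4) ∪ Icc (b + d - ε / 4) (b + d + ε / 4)) := by
      intro u hu
      by_cases h1 : u ≤ a + d
      · right; left
        constructor <;> linarith [hu.1, hu.2, hdt.1, hdt.2]
      · by_cases h2 : b + d ≤ u
        · right; right
          constructor <;> linarith [hu.1, hu.2, hdt.1, hdt.2]
        · left
          exact ⟨lt_of_not_ge h1, lt_of_not_ge h2⟩
    calc μ (Ioo (a + t) (b + t)) ≤ _ := measure_mono hsub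
      _ ≤ μ (Ioo (a + d) (b + d)) + μ (Icc (a + d - ε / 4) (a + d + ε / 4) ∪
            Icc (b + d - ε / 4) (b + d + ε / 4)) := measure_union_le _ _
      _ ≤ μ (Ioo a b) + ε := by
        rw [step1 d hd]
        gcongr
        calc _ ≤ μ (Icc (a + d - ε / 4) (a + d + ε / 4)) + μ (Icc (b + d - ε / 4) (b + d + ε / 4)) :=
              measure_union_le _ _
          _ ≤ volume (Icc (a + d - (ε : ℝ) / 4) (a + d + ε / 4)) +
              volume (Icc (b + d - (ε : ℝ) / 4) (b + d + ε / 4)) := add_le_add (hle _) (hle _)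
          _ = ENNReal.ofReal ((ε : ℝ) / 2) + ENNReal.ofReal ((ε : ℝ) / 2) := by
            rw [Real.volume_Icc, Real.volume_Icc]
            congr 2 <;> ring
          _ = ENNReal.ofReal (ε : ℝ) := by
            rw [← ENNReal.ofReal_add (by positivity) (by positivity)]
            congr 1
            ring
          _ = ε := ENNReal.ofReal_coe_nnreal
  have step3 : ∀ t a b : ℝ, μ (Ioo (a + t) (b + t)) = μ (Ioo a b) := by
    intro t a b
    apply le_antisymm (step2 t a b)
    have := step2 (-t) (a + t) (b + t)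
    simpa using this
  have hinvμ : μ.IsAddLeftInvariant := by
    refine ⟨fun t => ?_⟩
    symm
    apply Real.measure_ext_Ioo_rat
    intro a b
    rw [Measure.map_apply (by fun_prop) measurableSet_Ioo]
    have : (fun u => t + u) ⁻¹' Ioo (a : ℝ) b = Ioo ((a : ℝ) + -t) (b + -t) := by
      ext u
      simp only [mem_preimage, mem_Ioo]
      constructor <;> rintro ⟨h1, h2⟩ <;> constructor <;> linarith
    rw [this, step3]
  have hμ := Measure.isAddLeftInvariant_eq_smul μ volume
  have h0 : μ Aᶜ = 0 := by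
    show volume.restrict A _ = 0
    rw [Measure.restrict_apply hA.compl]
    simp
  rw [hμ] at h0
  rw [Measure.smul_apply] at h0
  rcases eq_or_ne (Measure.addHaarScalarFactor μ volume) 0 with hc | hc
  · exfalso
    apply hpos
    have : μ univ = 0 := by
      rw [hμ, hc]
      simp
    simpa [μ] using this
  · rw [ENNReal.smul_def, smul_eq_mul, mul_eq_zero] at h0
    rcases h0 with h0 | h0
    · exact absurd (by exact_mod_cast h0) hc
    · exact h0

/-! ## Algebraic control of a map into the group -/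

section Main

variable {ι : Type} {x : ι → ℝ}

lemma control (hx : IsStrongSierpinski x) (F : ℝ → ℝ) (hF : Continuous F)
    (hFG : ∀ t ∈ AddSubgroup.closure (range x), F t ∈ AddSubgroup.closure (range x))
    (C0 : Set ι) (h0 : C0.Countable) :
    ∃ C : Set ι, C.Countable ∧ C0 ⊆ C ∧ ∀ β ∉ C, ∀ g' ∈ AddSubgroup.closure (x '' C),
      ∃ m : ℤ, ∃ g ∈ AddSubgroup.closure (x '' C), F (x β + g') = m * x β + g := by
  classical
  have hc : ∀ (n : ℕ) (N : Set (Fin n → ℝ)), ∃ C : Set ι, C.Countable ∧
      (volume N = 0 → ∀ σ : Fin n → ι, Function.Injective σ → (∀ i, σ i ∉ C) →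
        (fun i => x (σ i)) ∉ N) := by
    intro n N
    by_cases h : volume N = 0
    · obtain ⟨C, hC, h2⟩ := hx.2 n N h
      exact ⟨C, hC, fun _ => h2⟩
    · exact ⟨∅, countable_empty, fun h' => absurd h' h⟩
  choose c hcc hcN using hc
  let Γ : Finset ι → Set ι := fun s => ⋃ k : ℕ, ⋃ n : Fin k → ℤ, ⋃ m : ℤ,
    ⋃ g ∈ (AddSubgroup.closure (x '' (s : Set ι)) : Set ℝ),
    ⋃ g' ∈ (AddSubgroup.closure (x '' (s : Set ι)) : Set ℝ), c (k + 1) (Rel F k n m g g')
  have hΓ : ∀ s, (Γ s).Countable := by
    intro s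
    have hs : (AddSubgroup.closure (x '' (s : Set ι)) : Set ℝ).Countable :=
      countable_closure (s.countable_toSet.image x)
    exact countable_iUnion fun k => countable_iUnion fun n => countable_iUnion fun m =>
      hs.biUnion fun g _ => hs.biUnion fun g' _ => hcc _ _
  obtain ⟨C, hC, hC0, hcl⟩ := exists_closed Γ hΓ C0 h0
  refine ⟨C, hC, hC0, fun β hβ g' hg' => ?_⟩
  have hxβ : x β + g' ∈ AddSubgroup.closure (range x) :=
    AddSubgroup.add_mem _ (AddSubgroup.subset_closure ⟨β, rfl⟩)
      (AddSubgroup.closure_mono (image_subset_range _ _) hg')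
  obtain ⟨a, ha⟩ := mem_rep x (hFG _ hxβ)
  rw [Finsupp.linearCombination_apply, Finsupp.sum] at ha
  let f : ι → ℝ := fun i => a i • x i
  let U : Finset ι := a.support.erase β
  have h1 : ∑ i ∈ a.support, f i = f β + ∑ i ∈ U, f i := by
    by_cases hb : β ∈ a.support
    · exact (Finset.add_sum_erase _ _ hb).symm
    · have : a β = 0 := by simpa using hb
      simp [U, f, this]
  have h2 : ∑ i ∈ U, f i = ∑ i ∈ U.filter (· ∈ C), f i + ∑ i ∈ U.filter (· ∉ C), f i :=
    (Finset.sum_filter_add_sum_filter_not _ _ _).symm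
  let g : ℝ := ∑ i ∈ U.filter (· ∈ C), f i
  have hg : g ∈ AddSubgroup.closure (x '' C) := by
    refine AddSubgroup.sum_mem _ fun i hi => ?_
    exact AddSubgroup.zsmul_mem _ (AddSubgroup.subset_closure
      (mem_image_of_mem x (Finset.mem_filter.1 hi).2)) _
  let R : Finset ι := U.filter (· ∉ C)
  have h3 : F (x β + g') = (a β : ℝ) * x β + ∑ i ∈ R, f i + g := by
    rw [ha]
    have : f β = (a β : ℝ) * x β := by simp [f]
    rw [← this]
    show ∑ i ∈ a.support, f i = _
    rw [h1, h2]
    simp only [g, R]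
    ring
  rcases R.eq_empty_or_nonempty with hR | hR
  · refine ⟨a β, g, hg, ?_⟩
    rw [h3, hR]
    simp
  · exfalso
    let n : Fin R.card → ℤ := fun i => a (R.equivFin.symm i).1
    let σ : Fin (R.card + 1) → ι := Fin.cons β (fun i => (R.equivFin.symm i).1)
    have hRmem : ∀ i : Fin R.card, (R.equivFin.symm i).1 ∈ U ∧ (R.equivFin.symm i).1 ∉ C :=
      fun i => Finset.mem_filter.1 (R.equivFin.symm i).2
    have hn : ∀ i, n i ≠ 0 := by
      intro i
      have := (Finset.mem_erase.1 (hRmem i).1).2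
      simpa [n] using this
    have hnull := null_rel F hF R.card n (a β) g g' ⟨0, Finset.card_pos.2 hR⟩ (hn _)
    have hσ : Function.Injective σ := by
      rw [Fin.cons_injective_iff]
      refine ⟨?_, fun i j hij => ?_⟩
      · rintro ⟨i, hi⟩
        exact (Finset.mem_erase.1 (hRmem i).1).1 hi
      · exact R.equivFin.symm.injective (Subtype.ext hij)
    have hσC : ∀ i, σ i ∉ C := by
      intro i
      refine Fin.cases ?_ (fun i => ?_) i
      · simpa [σ] using hβ
      · simpa [σ] using (hRmem i).2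
    have hsub : c (R.card + 1) (Rel F R.card n (a β) g g') ⊆ C := by
      obtain ⟨s1, hs1, hg1⟩ := finite_support x C hg
      obtain ⟨s2, hs2, hg2⟩ := finite_support x C hg'
      have hsC : ((s1 ∪ s2 : Finset ι) : Set ι) ⊆ C := by simp [hs1, hs2]
      refine Subset.trans ?_ (hcl (s1 ∪ s2) hsC)
      have e1 : g ∈ (AddSubgroup.closure (x '' ((s1 ∪ s2 : Finset ι) : Set ι)) : Set ℝ) :=
        AddSubgroup.closure_mono (image_mono (by simp)) hg1
      have e2 : g' ∈ (AddSubgroup.closure (x '' ((s1 ∪ s2 : Finset ι) : Set ι)) : Set ℝ) :=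
        AddSubgroup.closure_mono (image_mono (by simp)) hg2
      intro i hi
      simp only [Γ, mem_iUnion]
      exact ⟨R.card, n, a β, g, e1, g', e2, hi⟩
    refine hcN _ _ hnull σ hσ (fun i h => hσC i (hsub h)) ?_
    show F (x (σ 0) + g') = (a β : ℝ) * x (σ 0) + ∑ i, (n i : ℝ) * x (σ i.succ) + g
    have e3 : ∑ i, (n i : ℝ) * x (σ i.succ) = ∑ i ∈ R, f i := by
      rw [← Finset.sum_coe_sort R f, ← Equiv.sum_comp R.equivFin.symm]
      refine Finset.sum_congr rfl fun i _ => ?_
      simp [n, σ, f]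
    rw [e3]
    simpa [σ] using h3

lemma pairs (hx : IsStrongSierpinski x) : ∃ C : Set ι, C.Countable ∧ ∀ α ∉ C, ∀ β ∉ C, α ≠ β →
    ∀ m n : ℤ, n ≠ 0 → (m : ℝ) * x α + n * x β ≠ 0 := by
  have hnull : volume (⋃ m : ℤ, ⋃ n : {n : ℤ // n ≠ 0},
      Rel (fun _ => 0) 1 (fun _ => n.1) m 0 0) = 0 := by
    rw [measure_iUnion_null_iff]
    intro m
    rw [measure_iUnion_null_iff]
    intro n
    exact null_rel _ continuous_const 1 _ m 0 0 0 n.2
  obtain ⟨C, hC, h⟩ := hx.2 2 _ hnull
  refine ⟨C, hC, fun α hα β hβ hne m n hn heq => ?_⟩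
  refine h ![α, β] ?_ ?_ ?_
  · intro i j hij
    fin_cases i <;> fin_cases j <;> simp_all [Matrix.cons_val_zero, Matrix.cons_val_one]
  · intro i
    fin_cases i <;> simpa
  · simp only [mem_iUnion]
    refine ⟨m, ⟨n, hn⟩, ?_⟩
    show (0 : ℝ) = _
    simp [heq]

lemma dense_closure {C1 : Set ι} (hC1 : ∀ α ∉ C1, ∀ β ∉ C1, α ≠ β →
    ∀ m n : ℤ, n ≠ 0 → (m : ℝ) * x α + n * x β ≠ 0) {α β : ι} (hα : α ∉ C1) (hβ : β ∉ C1)
    (hne : α ≠ β) {s : Set ℝ} (hs1 : x α ∈ s) (hs2 : x β ∈ s) :
    Dense (AddSubgroup.closure s : Set ℝ) := by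
  rcases AddSubgroup.dense_or_cyclic (AddSubgroup.closure s) with h | ⟨a, ha⟩
  · exact h
  · exfalso
    have e1 : x α ∈ AddSubgroup.closure {a} := by rw [← ha]; exact AddSubgroup.subset_closure hs1
    have e2 : x β ∈ AddSubgroup.closure {a} := by rw [← ha]; exact AddSubgroup.subset_closure hs2
    obtain ⟨p, hp⟩ := AddSubgroup.mem_closure_singleton.1 e1
    obtain ⟨q, hq⟩ := AddSubgroup.mem_closure_singleton.1 e2
    rw [zsmul_eq_mul] at hp hq
    by_cases h0 : p = 0
    · apply hC1 β hβ α hα hne.symm 0 1 one_ne_zero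
      rw [← hp, h0]
      simp
    · apply hC1 α hα β hβ hne q (-p) (neg_ne_zero.2 h0)
      rw [← hp, ← hq]
      push_cast
      ring

end Main

/-! ## Pieces on which a map is an isometry -/

def sgn (b : Bool) : ℝ := if b then 1 else -1

lemma sgn_mul_sgn (b : Bool) : sgn b * sgn b = 1 := by
  cases b <;> simp [sgn]

lemma sgn_inj {b b' : Bool} (h : sgn b = sgn b') : b = b' := by
  cases b <;> cases b' <;> simp [sgn] at h ⊢ <;> norm_num at h

def E (F : ℝ → ℝ) (ε g : ℝ) : Set ℝ := {t | F t = ε * t + g}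

lemma vol_image (b : Bool) (g : ℝ) {s : Set ℝ} (hs : MeasurableSet s) :
    volume ((fun t => sgn b * t + g) '' s) = volume s ∧
      MeasurableSet ((fun t => sgn b * t + g) '' s) := by
  have himg : (fun t => sgn b * t + g) '' s = (fun y => sgn b * (y + -g)) ⁻¹' s := by
    have h1 := sgn_mul_sgn b
    ext y
    constructor
    · rintro ⟨t, ht, rfl⟩
      show sgn b * (sgn b * t + g + -g) ∈ s
      have : sgn b * (sgn b * t + g + -g) = t := by linear_combination t * h1
      rwa [this]
    · intro hy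
      refine ⟨sgn b * (y + -g), hy, ?_⟩
      show sgn b * (sgn b * (y + -g)) + g = y
      linear_combination (y + -g) * h1
  have hmp : MeasurePreserving (fun y : ℝ => sgn b * (y + -g)) volume volume := by
    have h2 := measurePreserving_add_right (volume : Measure ℝ) (-g)
    cases b
    · have h3 := (Measure.measurePreserving_neg (volume : Measure ℝ)).comp h2
      convert h3 using 2
      simp [sgn]
    · convert h2 using 2
      simp [sgn]
  rw [himg]
  exact ⟨hmp.measure_preimage hs.nullMeasurableSet, hmp.measurable hs⟩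

lemma isometry_of_pieces (F : ℝ → ℝ) (hF : ∀ a b, |F a - F b| ≤ |a - b|) (G S : AddSubgroup ℝ)
    (hG : Dense (G : Set ℝ)) (hSG : S ≤ G) (hS : (S : Set ℝ).Countable)
    (hinj : ∀ s ∈ G, ∀ t ∈ G, F s = F t → s = t)
    (hnull : volume (⋃ p : Bool × S, interior (E F (sgn p.1) p.2))ᶜ = 0) (a b : ℝ) (hab : a ≤ b) :
    |F a - F b| = b - a := by
  have : Countable S := hS
  have hcont : Continuous F := by
    have : LipschitzWith 1 F := LipschitzWith.of_dist_le_mul fun a b => by
      simpa [Real.dist_eq] using hF a b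
    exact this.continuous
  let J : Bool × S → Set ℝ := fun p => interior (E F (sgn p.1) p.2)
  have hJo : ∀ p, IsOpen (J p) := fun p => isOpen_interior
  have hJF : ∀ p, ∀ t ∈ J p, F t = sgn p.1 * t + p.2 := fun p t ht =>
    (interior_subset ht : t ∈ E F (sgn p.1) p.2)
  -- two different pieces are disjoint
  have hdisj : ∀ p q, p ≠ q → Disjoint (J p) (J q) := by
    intro p q hpq
    rw [Set.disjoint_left]
    intro t htp htq
    have hO : IsOpen (J p ∩ J q) := (hJo p).inter (hJo q)
    obtain ⟨ε, hε, hball⟩ := Metric.isOpen_iff.1 hO t ⟨htp, htq⟩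
    have h1 : t + ε / 2 ∈ J p ∩ J q := by
      apply hball
      rw [Metric.mem_ball, Real.dist_eq]
      rw [show t + ε / 2 - t = ε / 2 by ring, abs_of_pos (by positivity)]
      linarith
    have e1 := hJF p t htp
    have e2 := hJF q t htq
    have e3 := hJF p _ h1.1
    have e4 := hJF q _ h1.2
    have e5 : sgn p.1 = sgn q.1 := by
      have : (sgn p.1 - sgn q.1) * (ε / 2) = 0 := by linarith
      rcases mul_eq_zero.1 this with h | h
      · linarith
      · linarith
    apply hpq
    apply Prod.ext (sgn_inj e5)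
    apply Subtype.ext
    rw [e5] at e1
    linarith
  -- the images of different pieces are disjoint
  have himg : ∀ p q, p ≠ q → Disjoint (F '' (J p)) (F '' (J q)) := by
    intro p q hpq
    rw [Set.disjoint_left]
    rintro y ⟨t, ht, hty⟩ ⟨s, hs, hsy⟩
    let O : Set ℝ := (fun u => sgn p.1 * (u - p.2)) ⁻¹' (J p) ∩ (fun u => sgn q.1 * (u - q.2)) ⁻¹' (J q)
    have hO : IsOpen O :=
      ((hJo p).preimage (by fun_prop)).inter ((hJo q).preimage (by fun_prop))
    have hback : ∀ r : Bool × S, ∀ t : ℝ, sgn r.1 * (sgn r.1 * t + r.2 - r.2) = t := by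
      intro r t
      linear_combination t * sgn_mul_sgn r.1
    have hyO : y ∈ O := by
      constructor
      · show sgn p.1 * (y - p.2) ∈ J p
        rw [← hty, hJF p t ht, hback]
        exact ht
      · show sgn q.1 * (y - q.2) ∈ J q
        rw [← hsy, hJF q s hs, hback]
        exact hs
    obtain ⟨u, huO, huG⟩ := hG.inter_open_nonempty O hO ⟨y, hyO⟩
    have hmem : ∀ r : Bool × S, sgn r.1 * (u - r.2) ∈ G := by
      intro r
      have h1 : u - r.2 ∈ G := G.sub_mem huG (hSG r.2.2)
      rcases r with ⟨b, r2⟩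
      cases b
      · simpa [sgn] using G.neg_mem h1
      · simpa [sgn] using h1
    have hval : ∀ r : Bool × S, sgn r.1 * (u - r.2) ∈ J r → F (sgn r.1 * (u - r.2)) = u := by
      intro r hr
      rw [hJF r _ hr]
      linear_combination (u - r.2) * sgn_mul_sgn r.1
    have heq := hinj _ (hmem p) _ (hmem q) ((hval p huO.1).trans (hval q huO.2).symm)
    have h1 : sgn p.1 * (u - p.2) ∈ J q := by
      rw [heq]
      exact huO.2
    exact Set.disjoint_left.1 (hdisj p q hpq) huO.1 h1
  -- measures
  have hpiece : ∀ p, F '' (Icc a b ∩ J p) = (fun t => sgn p.1 * t + p.2) '' (Icc a b ∩ J p) :=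
    fun p => image_congr fun t ht => hJF p t ht.2
  have hvol : volume (Icc a b) ≤ volume (F '' (Icc a b)) := by
    have hm : ∀ p, MeasurableSet (Icc a b ∩ J p) := fun p =>
      measurableSet_Icc.inter (hJo p).measurableSet
    calc volume (Icc a b) ≤ volume ((⋃ p, (Icc a b ∩ J p)) ∪ (⋃ p, J p)ᶜ) := by
          apply measure_mono
          intro t ht
          by_cases h : t ∈ ⋃ p, J p
          · obtain ⟨p, hp⟩ := mem_iUnion.1 h
            exact Or.inl (mem_iUnion.2 ⟨p, ht, hp⟩)
          · exact Or.inr h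
      _ ≤ volume (⋃ p, (Icc a b ∩ J p)) + volume (⋃ p, J p)ᶜ := measure_union_le _ _
      _ = volume (⋃ p, (Icc a b ∩ J p)) := by rw [hnull, add_zero]
      _ = ∑' p, volume (Icc a b ∩ J p) := by
          apply measure_iUnion
          · intro p q hpq
            exact (hdisj p q hpq).mono inter_subset_right inter_subset_right
          · exact hm
      _ = ∑' p, volume (F '' (Icc a b ∩ J p)) := by
          congr 1
          ext p
          rw [hpiece p, (vol_image p.1 p.2 (hm p)).1]
      _ = volume (⋃ p, F '' (Icc a b ∩ J p)) := by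
          symm
          apply measure_iUnion
          · intro p q hpq
            exact (himg p q hpq).mono (image_mono inter_subset_right)
              (image_mono inter_subset_right)
          · intro p
            rw [hpiece p]
            exact (vol_image p.1 p.2 (hm p)).2
      _ ≤ volume (F '' (Icc a b)) := by
          apply measure_mono
          exact iUnion_subset fun p => image_mono inter_subset_left
  obtain ⟨t1, ht1, hmin⟩ := isCompact_Icc.exists_isMinOn (nonempty_Icc.2 hab) hcont.continuousOn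
  obtain ⟨t2, ht2, hmax⟩ := isCompact_Icc.exists_isMaxOn (nonempty_Icc.2 hab) hcont.continuousOn
  have h1 : volume (F '' (Icc a b)) ≤ volume (Icc (F t1) (F t2)) := by
    apply measure_mono
    rintro _ ⟨t, ht, rfl⟩
    exact ⟨hmin ht, hmax ht⟩
  have h2 := hvol.trans h1
  rw [Real.volume_Icc, Real.volume_Icc] at h2
  have h12 : F t1 ≤ F t2 := hmin ht2
  have h3 : b - a ≤ F t2 - F t1 := (ENNReal.ofReal_le_ofReal_iff (by linarith)).1 h2
  have h4 := hF t2 t1
  have h5 : F t2 - F t1 ≤ |t2 - t1| := (le_abs_self _).trans h4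
  have h6 := hF a b
  rw [abs_of_nonpos (show a - b ≤ 0 by linarith)] at h6
  rcases le_total t1 t2 with h | h
  · rw [abs_of_nonneg (by linarith)] at h5
    have e1 : t1 = a := by linarith [ht1.1, ht1.2, ht2.1, ht2.2]
    have e2 : t2 = b := by linarith [ht1.1, ht1.2, ht2.1, ht2.2]
    subst e1 e2
    rw [abs_sub_comm]
    rw [abs_of_nonneg (by linarith)]
    have h7 := le_abs_self (F t2 - F t1)
    rw [abs_sub_comm] at h7
    linarith
  · rw [abs_of_nonpos (by linarith)] at h5
    have e1 : t2 = a := by linarith [ht1.1, ht1.2, ht2.1, ht2.2]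
    have e2 : t1 = b := by linarith [ht1.1, ht1.2, ht2.1, ht2.2]
    subst e1 e2
    rw [abs_of_nonneg (by linarith)]
    have h7 := le_abs_self (F t2 - F t1)
    linarith

/-! ## The theorem -/

lemma ordConnected_E (F : ℝ → ℝ) (hF : ∀ a b, |F a - F b| ≤ |a - b|) (b : Bool) (g : ℝ) {s t z : ℝ}
    (hs : s ∈ E F (sgn b) g) (ht : t ∈ E F (sgn b) g) (hz : z ∈ Icc s t) :
    z ∈ E F (sgn b) g := by
  have h1 := hF z s
  have h2 := hF t z
  rw [abs_of_nonneg (show 0 ≤ z - s by linarith [hz.1])] at h1
  rw [abs_of_nonneg (show 0 ≤ t - z by linarith [hz.2])] at h2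
  obtain ⟨h3, h4⟩ := abs_le.1 h1
  obtain ⟨h5, h6⟩ := abs_le.1 h2
  have e1 : F s = sgn b * s + g := hs
  have e2 : F t = sgn b * t + g := ht
  show F z = sgn b * z + g
  cases b
  · simp only [sgn, Bool.false_eq_true, if_false] at e1 e2 ⊢
    linarith
  · simp only [sgn, if_true] at e1 e2 ⊢
    linarith

lemma boundary_countable (F : ℝ → ℝ) (hF : ∀ a b, |F a - F b| ≤ |a - b|) (b : Bool) (g : ℝ) :
    (E F (sgn b) g \ interior (E F (sgn b) g)).Countable := by
  have h1 : ({t ∈ E F (sgn b) g | ∀ s ∈ E F (sgn b) g, s ≤ t}).Subsingleton := by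
    rintro s ⟨hs, hs'⟩ t ⟨ht, ht'⟩
    exact le_antisymm (ht' s hs) (hs' t ht)
  have h2 : ({t ∈ E F (sgn b) g | ∀ s ∈ E F (sgn b) g, t ≤ s}).Subsingleton := by
    rintro s ⟨hs, hs'⟩ t ⟨ht, ht'⟩
    exact le_antisymm (hs' t ht) (ht' s hs)
  refine (h1.countable.union h2.countable).mono ?_
  rintro t ⟨ht, hti⟩
  by_contra hcon
  apply hti
  have h3 : ¬ ∀ s ∈ E F (sgn b) g, s ≤ t := fun h => hcon (Or.inl ⟨ht, h⟩)
  have h4 : ¬ ∀ s ∈ E F (sgn b) g, t ≤ s := fun h => hcon (Or.inr ⟨ht, h⟩)
  push Not at h3 h4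
  obtain ⟨u, hu, htu⟩ := h3
  obtain ⟨v, hv, hvt⟩ := h4
  rw [mem_interior]
  exact ⟨Ioo v u, fun z hz => ordConnected_E F hF b g hv hu ⟨hz.1.le, hz.2.le⟩, isOpen_Ioo, hvt, htu⟩

variable {ι : Type} {x : ι → ℝ}

lemma not_countable_compl (hx : Uncountable ι) {C : Set ι} (hC : C.Countable) : ¬ Cᶜ.Countable := by
  intro h
  have h1 : (univ : Set ι).Countable := by
    rw [← union_compl_self C]
    exact hC.union h
  have h2 := Set.countable_univ_iff.1 h1
  exact not_countable (α := ι) h2

lemma plastic (hx : IsStrongSierpinski x) :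
    Dense (AddSubgroup.closure (range x) : Set ℝ) ∧ IsPlastic (AddSubgroup.closure (range x)) := by
  classical
  obtain ⟨C1, hC1, hpairs⟩ := pairs hx
  have hunc := hx.1
  obtain ⟨α, hα, β, hβ, hαβ⟩ : ∃ α ∉ C1, ∃ β ∉ C1, α ≠ β := by
    by_contra hcon
    push Not at hcon
    apply not_countable_compl hunc hC1
    have : (C1ᶜ).Subsingleton := fun a ha b hb => hcon a ha b hb
    exact this.countable
  have hdense : Dense (AddSubgroup.closure (range x) : Set ℝ) :=
    dense_closure hpairs hα hβ hαβ ⟨α, rfl⟩ ⟨β, rfl⟩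
  set G := AddSubgroup.closure (range x) with hG
  refine ⟨hdense, ?_⟩
  intro f hf hfd
  let f0 : ℝ → ℝ := fun t => if h : t ∈ G then (f ⟨t, h⟩ : ℝ) else 0
  have hf0 : LipschitzOnWith 1 f0 (G : Set ℝ) := by
    refine LipschitzOnWith.of_dist_le_mul fun s hs t ht => ?_
    have hs' : s ∈ G := hs
    have ht' : t ∈ G := ht
    simp only [f0, dif_pos hs', dif_pos ht']
    have := hfd ⟨s, hs⟩ ⟨t, ht⟩
    rw [Subtype.dist_eq, Subtype.dist_eq] at this
    simpa using this
  obtain ⟨F, hFL, hFe⟩ := hf0.extend_real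
  have hFf : ∀ t (h : t ∈ G), F t = f ⟨t, h⟩ := by
    intro t h
    rw [← hFe h]
    simp only [f0, dif_pos h]
  have hF : ∀ a b, |F a - F b| ≤ |a - b| := by
    intro a b
    have := hFL.dist_le_mul a b
    simpa [Real.dist_eq] using this
  have hFG : ∀ t ∈ G, F t ∈ G := fun t ht => by
    rw [hFf t ht]
    exact (f ⟨t, ht⟩).2
  have hinj : ∀ s ∈ G, ∀ t ∈ G, F s = F t → s = t := by
    intro s hs t ht h
    rw [hFf s hs, hFf t ht] at h
    have := hf.1 (Subtype.ext h)
    exact congrArg Subtype.val this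
  obtain ⟨C, hC, hC0, hcontrol⟩ := control hx F hFL.continuous hFG {α, β} (by simp)
  set S := AddSubgroup.closure (x '' C) with hS
  have hSG : S ≤ G := AddSubgroup.closure_mono (image_subset_range _ _)
  have hSc : (S : Set ℝ).Countable := countable_closure (hC.image x)
  have hSd : Dense (S : Set ℝ) :=
    dense_closure hpairs hα hβ hαβ (mem_image_of_mem x (hC0 (by simp)))
      (mem_image_of_mem x (hC0 (by simp)))
  have hScount : Countable S := hSc
  let W : Set ℝ := ⋃ p : Bool × S, interior (E F (sgn p.1) p.2)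
  let P : Set ℝ := (⋃ m : {m : ℤ // 2 ≤ |m|}, ⋃ g ∈ (S : Set ℝ), E F m.1 g) ∪
    (⋃ g ∈ (S : Set ℝ), (E F 0 g ∩ G)) ∪
    ⋃ p : Bool × S, (E F (sgn p.1) p.2 \ interior (E F (sgn p.1) p.2))
  have hP : P.Countable := by
    refine ((countable_iUnion fun m => hSc.biUnion fun g _ => ?_).union
      (hSc.biUnion fun g _ => ?_)).union (countable_iUnion fun p => boundary_countable F hF _ _)
    · apply Set.Subsingleton.countable
      intro s hs t ht
      have e1 : F s = (m.1 : ℝ) * s + g := hs
      have e2 : F t = (m.1 : ℝ) * t + g := ht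
      have h1 := hF s t
      rw [e1, e2, show (m.1 : ℝ) * s + g - (m.1 * t + g) = m.1 * (s - t) by ring, abs_mul] at h1
      have h2 : (2 : ℝ) ≤ |(m.1 : ℝ)| := by exact_mod_cast m.2
      have h3 : |s - t| = 0 := by
        nlinarith [abs_nonneg (s - t)]
      linarith [abs_eq_zero.1 h3]
    · apply Set.Subsingleton.countable
      rintro s ⟨hs, hsG⟩ t ⟨ht, htG⟩
      apply hinj s hsG t htG
      have e1 : F s = 0 * s + g := hs
      have e2 : F t = 0 * t + g := ht
      rw [e1, e2]
      ring
  have hcover : ∀ γ ∉ C, ∀ d ∈ S, x γ + d ∈ W ∪ P := by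
    intro γ hγ d hd
    obtain ⟨m, g, hg, h1⟩ := hcontrol γ hγ d hd
    have hg' : g - m * d ∈ S := by
      refine S.sub_mem hg ?_
      have := S.zsmul_mem hd m
      simpa using this
    have h2 : x γ + d ∈ E F m (g - m * d) := by
      show F (x γ + d) = m * (x γ + d) + (g - m * d)
      rw [h1]
      ring
    by_cases hm2 : 2 ≤ |m|
    · right; left; left
      exact mem_iUnion.2 ⟨⟨m, hm2⟩, mem_biUnion hg' h2⟩
    · by_cases hm0 : m = 0
      · right; left; right
        refine mem_biUnion hg' ⟨?_, ?_⟩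
        · subst hm0
          simpa using h2
        · exact G.add_mem (AddSubgroup.subset_closure ⟨γ, rfl⟩) (hSG hd)
      · have hm1 : ∃ b : Bool, (m : ℝ) = sgn b := by
          have h3 : |m| < 2 := lt_of_not_ge hm2
          rw [abs_lt] at h3
          have h4 : m = 1 ∨ m = -1 := by omega
          rcases h4 with rfl | rfl
          · exact ⟨true, by simp [sgn]⟩
          · exact ⟨false, by simp [sgn]⟩
        obtain ⟨b, hb⟩ := hm1
        have h3 : x γ + d ∈ E F (sgn b) (g - m * d) := by rw [← hb]; exact h2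
        by_cases hi : x γ + d ∈ interior (E F (sgn b) (g - m * d))
        · left
          exact mem_iUnion.2 ⟨(b, ⟨_, hg'⟩), hi⟩
        · right; right
          exact mem_iUnion.2 ⟨(b, ⟨_, hg'⟩), h3, hi⟩
  have hWo : IsOpen W := isOpen_iUnion fun p => isOpen_interior
  have hnull : volume Wᶜ = 0 := by
    by_contra hne
    let A : Set ℝ := ⋃ d ∈ (S : Set ℝ), (fun t => t + d) ⁻¹' Wᶜ
    have hAm : MeasurableSet A := by
      refine MeasurableSet.biUnion hSc fun d _ => ?_
      exact (hWo.isClosed_compl.preimage (by fun_prop)).measurableSet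
    have hAinv : ∀ d ∈ S, ∀ t, t + d ∈ A ↔ t ∈ A := by
      intro d hd t
      simp only [A, mem_iUnion, mem_preimage, SetLike.mem_coe]
      constructor
      · rintro ⟨e, he, h⟩
        exact ⟨d + e, S.add_mem hd he, by rwa [← add_assoc]⟩
      · rintro ⟨e, he, h⟩
        refine ⟨e - d, S.sub_mem he hd, ?_⟩
        rwa [show t + d + (e - d) = t + e by ring]
    have hApos : volume A ≠ 0 := by
      intro h
      apply hne
      refine measure_mono_null ?_ h
      intro t ht
      exact mem_biUnion (show (0 : ℝ) ∈ (S : Set ℝ) from S.zero_mem) (by simpa using ht)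
    have hAc := conull_of_invariant A hAm S hSd hAinv hApos
    have hmp : MeasurePreserving (fun t : Fin 1 → ℝ => t 0) volume volume :=
      volume_preserving_funUnique (Fin 1) ℝ
    have hN : volume ((fun t : Fin 1 → ℝ => t 0) ⁻¹' Aᶜ) = 0 := by
      rw [hmp.measure_preimage hAm.compl.nullMeasurableSet]
      exact hAc
    obtain ⟨C2, hC2, h2⟩ := hx.2 1 _ hN
    have hmem : ∀ γ ∉ C2, x γ ∈ A := by
      intro γ hγ
      by_contra hcon
      refine h2 (fun _ => γ) (fun i j _ => Subsingleton.elim i j) (fun _ => hγ) ?_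
      exact hcon
    let D : Set ι := C ∪ C1 ∪ C2
    have hD : D.Countable := (hC.union hC1).union hC2
    apply not_countable_compl hunc hD
    refine Set.countable_of_injective_of_countable_image (f := x) ?_ ?_
    · intro a ha b hb hab
      by_contra hne'
      have ha' : a ∉ C1 := fun h => ha (Or.inl (Or.inr h))
      have hb' : b ∉ C1 := fun h => hb (Or.inl (Or.inr h))
      apply hpairs a ha' b hb' hne' 1 (-1) (by norm_num)
      rw [hab]
      push_cast
      ring
    · have hQ : (⋃ d ∈ (S : Set ℝ), (fun t => t + d) ⁻¹' P).Countable :=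
        hSc.biUnion fun d _ => hP.preimage (add_left_injective d)
      refine hQ.mono ?_
      rintro _ ⟨γ, hγ, rfl⟩
      have h3 : γ ∉ C2 := fun h => hγ (Or.inr h)
      have h4 : γ ∉ C := fun h => hγ (Or.inl (Or.inl h))
      obtain ⟨d, hd, h5⟩ := mem_iUnion₂.1 (hmem γ h3)
      refine mem_biUnion hd ?_
      rcases hcover γ h4 d hd with h6 | h6
      · exact absurd h6 h5
      · exact h6
  have hiso : ∀ a b : ℝ, |F a - F b| = |a - b| := by
    intro a b
    rcases le_total a b with h | h
    · rw [isometry_of_pieces F hF G S hdense hSG hSc hinj hnull a b h, abs_sub_comm,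
        abs_of_nonneg (by linarith)]
    · rw [abs_sub_comm, isometry_of_pieces F hF G S hdense hSG hSc hinj hnull b a h,
        abs_of_nonneg (by linarith)]
  intro a b
  rw [Subtype.dist_eq, Subtype.dist_eq, Real.dist_eq, Real.dist_eq, ← hiso a.1 b.1, hFf _ a.2,
    hFf _ b.2]

lemma card_lt (hx : Uncountable ι) (hc : Cardinal.mk ι < Cardinal.continuum) :
    Cardinal.mk (AddSubgroup.closure (range x)) < Cardinal.continuum := by
  have hinf : Infinite ι := inferInstance
  have h1 : (AddSubgroup.closure (range x) : Set ℝ) ⊆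
      range (fun c : ι →₀ ℤ => Finsupp.linearCombination ℤ x c) := by
    intro y hy
    obtain ⟨c, hc⟩ := mem_rep x hy
    exact ⟨c, hc.symm⟩
  have h2 : Cardinal.mk (AddSubgroup.closure (range x) : Set ℝ) ≤ Cardinal.mk (ι →₀ ℤ) :=
    (Cardinal.mk_le_mk_of_subset h1).trans Cardinal.mk_range_le
  rw [Cardinal.mk_finsupp_of_infinite, Cardinal.mk_int] at h2
  exact h2.trans_lt (max_lt hc Cardinal.aleph0_lt_continuum)

/-- If there is a strong Sierpinski family indexed by a set of size less than the continuum, then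
there is a dense subgroup of the real line of size less than the continuum which is plastic. -/
theorem result (h : ∃ (ι : Type) (x : ι → ℝ), IsStrongSierpinski x ∧
      Cardinal.mk ι < Cardinal.continuum) :
    ∃ G : AddSubgroup ℝ, Dense (G : Set ℝ) ∧ Cardinal.mk G < Cardinal.continuum ∧ IsPlastic G := by
  obtain ⟨ι, x, hx, hc⟩ := h
  exact ⟨AddSubgroup.closure (range x), (plastic hx).1, card_lt hx.1 hc, (plastic hx).2⟩

end Pool.Agent.Results.MP_f5469c_gt.PlasticSubgroup
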